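import Mathlib
import Pool.Agent.MP_3afe9c_an.Transport

/-!
A smooth vector field on a flat torus with a chain recurrent point outside the Aubry set of the
Lagrangian `|v - f(x)|^2 / 2`.
-/

set_option autoImplicit false

open Pool.Agent.MP_3afe9c_an
open scoped ContDiff

theorem Pool.Agent.Results.MP_3afe9c_an.SmoothCounterexample.result :
    ∃ (n : ℕ) (f : EuclideanSpace ℝ (Fin n) → EuclideanSpace ℝ (Fin n))
      (φ : ℝ → EuclideanSpace ℝ (Fin n) → EuclideanSpace ℝ (Fin n)),
      ContDiff ℝ ∞ f ∧ (∀ x v, IsLat v → f (x + v) = f x) ∧ IsFlow f φ ∧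
        ∃ x, ChainRec φ x ∧ x ∉ aubry f :=
  exists_fin
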